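import Pool.Agent.H588R3.Final

set_option autoImplicit false

open MeasureTheory ProbabilityTheory Filter Topology
open scoped NNReal ENNReal

namespace Pool.Agent.Results.MP_320542_pr.ConvergesPosProb

open Pool.Agent.H588R3.FPP

variable {d : ℕ}

/-- `ℓ¹` distance -/
def l1 (x y : Fin d → ℤ) : ℕ := ∑ i, (x i - y i).natAbs

lemma l1_self (x : Fin d → ℤ) : l1 x x = 0 := by simp [l1]

lemma eq_of_l1 {x y : Fin d → ℤ} (h : l1 x y = 0) : x = y := by
  funext i
  rw [l1, Finset.sum_eq_zero_iff] at h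
  have := h i (Finset.mem_univ _)
  omega

lemma l1_split (x y : Fin d → ℤ) (k : Fin d) :
    l1 x y = (x k - y k).natAbs + ∑ i ∈ Finset.univ.erase k, (x i - y i).natAbs := by
  rw [l1, ← Finset.add_sum_erase _ _ (Finset.mem_univ k)]

/-- if only coordinate `k` changes -/
lemma l1_change {x x' y : Fin d → ℤ} {k : Fin d} (h : ∀ i ≠ k, x' i = x i) :
    l1 x y + (x' k - y k).natAbs = l1 x' y + (x k - y k).natAbs := by
  rw [l1_split x y k, l1_split x' y k]
  have : ∑ i ∈ Finset.univ.erase k, (x i - y i).natAbs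
      = ∑ i ∈ Finset.univ.erase k, (x' i - y i).natAbs := by
    apply Finset.sum_congr rfl
    intro i hi
    rw [h i (Finset.ne_of_mem_erase hi)]
  omega

lemma le_l1 (x y : Fin d → ℤ) (k : Fin d) : (x k - y k).natAbs ≤ l1 x y := by
  rw [l1_split x y k]; omega

lemma l1_comm (x y : Fin d → ℤ) : l1 x y = l1 y x := by
  unfold l1
  apply Finset.sum_congr rfl
  intro i _
  omega

/-- coordinates of neighbours -/
lemma joins_coord {e : Edge d} {x y : Fin d → ℤ} (h : Joins e x y) :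
    (∀ i ≠ e.2, y i = x i) ∧ (y e.2 = x e.2 + 1 ∨ y e.2 = x e.2 - 1) := by
  rcases h with ⟨h1, h2⟩ | ⟨h1, h2⟩
  · subst h1
    subst h2
    refine ⟨fun i hi => ?_, Or.inl ?_⟩
    · simp [tip, Pi.single_eq_of_ne hi]
    · simp [tip]
  · subst h1
    subst h2
    refine ⟨fun i hi => ?_, Or.inr ?_⟩
    · simp [tip, Pi.single_eq_of_ne hi]
    · simp [tip]

lemma l1_joins {e : Edge d} {x y : Fin d → ℤ} (h : Joins e x y) (z : Fin d → ℤ) :
    l1 x z ≤ 1 + l1 y z := by
  obtain ⟨h1, h2⟩ := joins_coord h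
  have := l1_change (y := z) h1
  omega

lemma step_toward {x y : Fin d → ℤ} {k : Fin d} (hk : x k ≠ y k) :
    ∃ x' : Fin d → ℤ, ∃ e, Joins e x x' ∧ (∀ i ≠ k, x' i = x i) ∧
      (x' k = x k + 1 ∧ x k < y k ∨ x' k = x k - 1 ∧ y k < x k) ∧ l1 x' y + 1 = l1 x y := by
  rcases lt_or_gt_of_ne hk with h | h
  · have hx' : ∀ i ≠ k, (x + Pi.single k 1 : Fin d → ℤ) i = x i := by
      intro i hi
      simp [Pi.single_eq_of_ne hi]
    refine ⟨x + Pi.single k 1, (x, k), Or.inl ⟨rfl, rfl⟩, hx', Or.inl ⟨by simp, h⟩, ?_⟩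
    have h2 := l1_change (y := y) hx'
    have h3 : (x + Pi.single k 1 : Fin d → ℤ) k = x k + 1 := by simp
    rw [h3] at h2
    omega
  · have hx' : ∀ i ≠ k, (x - Pi.single k 1 : Fin d → ℤ) i = x i := by
      intro i hi
      simp [Pi.single_eq_of_ne hi]
    refine ⟨x - Pi.single k 1, (x - Pi.single k 1, k), Or.inr ⟨by simp [tip], rfl⟩, hx',
      Or.inr ⟨by simp, h⟩, ?_⟩
    have h2 := l1_change (y := y) hx'
    have h3 : (x - Pi.single k 1 : Fin d → ℤ) k = x k - 1 := by simp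
    rw [h3] at h2
    omega

lemma exists_path (x y : Fin d → ℤ) : ∃ es : List (Edge d), IsPath es x y := by
  induction hn : l1 x y using Nat.strong_induction_on generalizing x with
  | _ n ih =>
    by_cases hxy : x = y
    · exact ⟨[], hxy⟩
    · obtain ⟨k, hk⟩ := Function.ne_iff.1 hxy
      obtain ⟨x', e, he, -, -, h4⟩ := step_toward hk
      obtain ⟨es, hes⟩ := ih (l1 x' y) (by omega) x' rfl
      exact ⟨e :: es, x', he, hes⟩

lemma T_le_of_path {ω : Edge d → ℝ≥0} {x y : Fin d → ℤ} {es : List (Edge d)}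
    (h : IsPath es x y) : T ω x y ≤ (es.map ω).sum := csInf_le' ⟨es, h, rfl⟩

lemma T_nonempty (ω : Edge d → ℝ≥0) (x y : Fin d → ℤ) :
    {c | ∃ es : List (Edge d), IsPath es x y ∧ c = (es.map ω).sum}.Nonempty := by
  obtain ⟨es, hes⟩ := exists_path x y
  exact ⟨_, es, hes, rfl⟩

lemma T_self (ω : Edge d → ℝ≥0) (x : Fin d → ℤ) : T ω x x = 0 := by
  have := T_le_of_path (ω := ω) (x := x) (y := x) (es := []) rfl
  simpa using this

lemma T_triangle (ω : Edge d → ℝ≥0) (x y z : Fin d → ℤ) :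
    T ω x z ≤ T ω x y + T ω y z := by
  rw [← tsub_le_iff_right]
  apply le_csInf (T_nonempty ω x y)
  rintro a ⟨es, hes, rfl⟩
  rw [tsub_le_iff_left, ← tsub_le_iff_left, tsub_le_iff_left, ← tsub_le_iff_right]
  apply le_csInf (T_nonempty ω y z)
  rintro b ⟨es', hes', rfl⟩
  rw [tsub_le_iff_right]
  have := T_le_of_path (ω := ω) (hes.append hes')
  rw [List.map_append, List.sum_append] at this
  rwa [add_comm]

lemma T_le_edge {ω : Edge d → ℝ≥0} {e : Edge d} {x y : Fin d → ℤ} (h : Joins e x y) :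
    T ω x y ≤ ω e := by
  have := T_le_of_path (ω := ω) (x := x) (y := y) (es := [e]) ⟨y, h, rfl⟩
  simpa using this

/-! ### The geometric configuration -/

/-- The region of expensive edges. -/
def InD (hd : 2 ≤ d) (h R : ℕ) (x : Fin d → ℤ) : Prop :=
  (-(h : ℤ) ≤ x ⟨0, by omega⟩ ∧ x ⟨0, by omega⟩ ≤ 0) ∧ ∀ j : Fin d, j ≠ ⟨0, by omega⟩ →
    (-(R : ℤ) ≤ x j ∧ x j ≤ R)

/-- The box in which the configuration is prescribed. -/
def InB (hd : 2 ≤ d) (h R : ℕ) (x : Fin d → ℤ) : Prop :=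
  (-(h : ℤ) - 1 ≤ x ⟨0, by omega⟩ ∧ x ⟨0, by omega⟩ ≤ 1) ∧ ∀ j : Fin d, j ≠ ⟨0, by omega⟩ →
    (-(R : ℤ) - 1 ≤ x j ∧ x j ≤ R + 1)

/-- The trapping configuration. -/
structure Trap (hd : 2 ≤ d) (h R : ℕ) (α β : ℝ≥0) (ω : Edge d → ℝ≥0) : Prop where
  first : ω (0, ⟨0, by omega⟩) ≤ α
  exp : ∀ e : Edge d, (InD hd h R e.1 ∨ InD hd h R (tip e)) → e ≠ (0, ⟨0, by omega⟩) → β ≤ ω e
  cheap : ∀ e : Edge d, InB hd h R e.1 → InB hd h R (tip e) → ¬ InD hd h R e.1 →
    ¬ InD hd h R (tip e) → ω e ≤ α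

section Geometry

variable {hd : 2 ≤ d} {h R : ℕ} {α β : ℝ≥0} {ω : Edge d → ℝ≥0}

lemma face (H : Trap hd h R α β ω) {i : Fin d} {c : ℤ} (hc : ∀ z, InD hd h R z → z i ≠ c)
    {x y : Fin d → ℤ} (hx : InB hd h R x) (hy : InB hd h R y) (hxi : x i = c) (hyi : y i = c) :
    T ω x y ≤ l1 x y * α := by
  induction hn : l1 x y using Nat.strong_induction_on generalizing x with
  | _ n ih =>
    by_cases hxy : x = y
    · rw [hxy, T_self]; exact zero_le
    · obtain ⟨k, hk⟩ := Function.ne_iff.1 hxy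
      have hki : i ≠ k := by
        rintro rfl
        exact hk (hxi.trans hyi.symm)
      obtain ⟨x', e, he, h2, h3, h4⟩ := step_toward hk
      have hx'B : InB hd h R x' := by
        refine ⟨?_, fun j hj => ?_⟩
        · by_cases h0 : (⟨0, by omega⟩ : Fin d) = k
          · have h5 := hx.1
            have h6 := hy.1
            rw [h0] at h5 h6 ⊢
            omega
          · rw [h2 _ h0]; exact hx.1
        · by_cases h0 : j = k
          · have h5 := hx.2 j hj
            have h6 := hy.2 j hj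
            rw [h0] at h5 h6 ⊢
            omega
          · rw [h2 _ h0]; exact hx.2 j hj
      have hx'i : x' i = c := by rw [h2 i hki]; exact hxi
      have h5 := ih (l1 x' y) (by omega) hx'B hx'i rfl
      have h6 : ω e ≤ α := by
        have hnx : ¬ InD hd h R x := fun hh => hc x hh hxi
        have hnx' : ¬ InD hd h R x' := fun hh => hc x' hh hx'i
        rcases he with ⟨h7, h8⟩ | ⟨h7, h8⟩
        · exact H.cheap e (h7 ▸ hx) (h8 ▸ hx'B) (h7 ▸ hnx) (h8 ▸ hnx')
        · exact H.cheap e (h8 ▸ hx'B) (h7 ▸ hx) (h8 ▸ hnx') (h7 ▸ hnx)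
      calc T ω x y ≤ T ω x x' + T ω x' y := T_triangle ω x x' y
        _ ≤ α + (l1 x' y : ℝ≥0) * α := add_le_add ((T_le_edge he).trans h6) h5
        _ = ((l1 x' y + 1 : ℕ) : ℝ≥0) * α := by push_cast; ring
        _ = _ := by rw [h4, hn]

/-- lower bound for the cost of a path -/
lemma lower_path (H : Trap hd h R α β ω) {y : Fin d → ℤ} (hy : ¬ InD hd h R y) :
    ∀ (es : List (Edge d)) (x : Fin d → ℤ), InD hd h R x → IsPath es x y →
      ω (0, ⟨0, by omega⟩) + T ω (Pi.single ⟨0, by omega⟩ 1) y ≤ (es.map ω).sum ∨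
      ∃ z, InB hd h R z ∧ ¬ InD hd h R z ∧ l1 x z * β + T ω z y ≤ (es.map ω).sum := by
  intro es
  induction es with
  | nil =>
    intro x hx hp
    have : x = y := hp
    exact absurd (this ▸ hx) hy
  | cons e es ih =>
    rintro x hx ⟨x', he, hp⟩
    rw [List.map_cons, List.sum_cons]
    have hx'B : InB hd h R x' := by
      obtain ⟨h1, h2⟩ := joins_coord he
      refine ⟨?_, fun j hj => ?_⟩
      · by_cases h0 : (⟨0, by omega⟩ : Fin d) = e.2
        · have h5 := hx.1
          rw [h0] at h5 ⊢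
          omega
        · rw [h1 _ h0]
          have := hx.1
          omega
      · by_cases h0 : j = e.2
        · have h5 := hx.2 j hj
          rw [h0] at h5 ⊢
          omega
        · rw [h1 _ h0]
          have := hx.2 j hj
          omega
    have htouch : InD hd h R e.1 ∨ InD hd h R (tip e) := by
      rcases he with ⟨h7, h8⟩ | ⟨h7, h8⟩
      · left; exact h7 ▸ hx
      · right; exact h7 ▸ hx
    by_cases hx' : InD hd h R x'
    · have hne : e ≠ (0, ⟨0, by omega⟩) := by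
        rintro rfl
        have hnt : ¬ InD hd h R (tip ((0, ⟨0, by omega⟩) : Edge d)) := by
          intro hh
          have := hh.1.2
          simp [tip] at this
        rcases he with ⟨h7, h8⟩ | ⟨h7, h8⟩
        · exact hnt (h8 ▸ hx')
        · exact hnt (h7 ▸ hx)
      have hβ := H.exp e htouch hne
      rcases ih x' hx' hp with h1 | ⟨z, hz1, hz2, hz3⟩
      · left
        exact h1.trans le_add_self
      · right
        refine ⟨z, hz1, hz2, ?_⟩
        have h5 : ((l1 x z : ℕ) : ℝ≥0) ≤ 1 + (l1 x' z : ℕ) := by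
          exact_mod_cast l1_joins he z
        calc (l1 x z : ℝ≥0) * β + T ω z y ≤ (1 + (l1 x' z : ℝ≥0)) * β + T ω z y := by
              gcongr
          _ = β + ((l1 x' z : ℝ≥0) * β + T ω z y) := by ring
          _ ≤ ω e + (es.map ω).sum := add_le_add hβ hz3
    · by_cases hne : e = (0, ⟨0, by omega⟩)
      · left
        subst hne
        have hx'e : x' = Pi.single ⟨0, by omega⟩ 1 := by
          rcases he with ⟨h7, h8⟩ | ⟨h7, h8⟩
          · rw [h8]; simp [tip]
          · exfalso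
            apply hx'
            rw [h8]
            refine ⟨⟨by simp, by simp⟩, fun j hj => ⟨by simp, by simp⟩⟩
        rw [← hx'e]
        exact add_le_add le_rfl (T_le_of_path hp)
      · right
        refine ⟨x', hx'B, hx', ?_⟩
        have hβ := H.exp e htouch hne
        have h5 : l1 x x' ≤ 1 := by
          have := l1_joins he x'
          rwa [l1_self] at this
        have h6 : ((l1 x x' : ℕ) : ℝ≥0) ≤ 1 := by exact_mod_cast h5
        calc (l1 x x' : ℝ≥0) * β + T ω x' y ≤ 1 * β + T ω x' y := by gcongr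
          _ = β + T ω x' y := by rw [one_mul]
          _ ≤ ω e + (es.map ω).sum := add_le_add hβ (T_le_of_path hp)

lemma l1_update (x y : Fin d → ℤ) (k : Fin d) (a : ℤ) :
    l1 x (Function.update y k a) + (x k - y k).natAbs = l1 x y + (x k - a).natAbs := by
  rw [l1_split x y k, l1_split x _ k]
  have : ∑ i ∈ Finset.univ.erase k, (x i - Function.update y k a i).natAbs
      = ∑ i ∈ Finset.univ.erase k, (x i - y i).natAbs := by
    apply Finset.sum_congr rfl
    intro i hi
    rw [Function.update_of_ne (Finset.ne_of_mem_erase hi)]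
  rw [this, Function.update_self]
  omega

lemma l1_update_self (y : Fin d → ℤ) (k : Fin d) (a : ℤ) :
    l1 (Function.update y k a) y = (a - y k).natAbs := by
  have h1 := l1_update y y k a
  rw [l1_self] at h1
  rw [l1_comm]
  omega

lemma l1_single (y : Fin d → ℤ) (k : Fin d) :
    l1 (Pi.single k 1) y + (y k).natAbs = l1 0 y + (1 - y k).natAbs := by
  have h0 : (Pi.single k 1 : Fin d → ℤ) = Function.update (0 : Fin d → ℤ) k 1 := rfl
  have := l1_update y (0 : Fin d → ℤ) k 1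
  rw [← h0, l1_comm y (Pi.single k 1), l1_comm y 0] at this
  simp only [Pi.zero_apply, sub_zero] at this
  omega

lemma InB_e1 : InB hd h R (Pi.single ⟨0, by omega⟩ 1) := by
  refine ⟨⟨?_, by simp⟩, fun j hj => ?_⟩
  · rw [Pi.single_eq_same]; omega
  rw [Pi.single_eq_of_ne hj]
  omega

/-- side points -/
lemma side (H : Trap hd h R α β ω) {z : Fin d → ℤ} (hz : InB hd h R z)
    {j : Fin d} (hj : j ≠ ⟨0, by omega⟩) (hzj : z j = R + 1 ∨ z j = -(R : ℤ) - 1)
    (hz0 : z ⟨0, by omega⟩ ≤ 0) :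
    T ω (Pi.single ⟨0, by omega⟩ 1) z ≤ ((l1 0 z + 1 : ℕ) : ℝ≥0) * α := by
  set y := Function.update z ⟨0, by omega⟩ 1 with hy
  have hyB : InB hd h R y := by
    refine ⟨?_, fun k hk => ?_⟩
    · rw [hy, Function.update_self]; omega
    · rw [hy, Function.update_of_ne hk]; exact hz.2 k hk
  have h1 : T ω (Pi.single ⟨0, by omega⟩ 1) y ≤ l1 (Pi.single ⟨0, by omega⟩ 1) y * α := by
    apply face H (i := ⟨0, by omega⟩) (c := 1) _ InB_e1 hyB
    · simp
    · rw [hy, Function.update_self]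
    · intro w hw h2
      have := hw.1.2
      omega
  have h2 : T ω y z ≤ l1 y z * α := by
    apply face H (i := j) (c := z j) _ hyB hz
    · rw [hy, Function.update_of_ne hj]
    · rfl
    · intro w hw h2
      have := hw.2 j hj
      omega
  have h3 : l1 (Pi.single ⟨0, by omega⟩ 1) y + l1 y z = l1 0 z + 1 := by
    have h4 := l1_update_self z ⟨0, by omega⟩ 1
    have h5 := l1_single z ⟨0, by omega⟩
    have h6 := l1_update (Pi.single ⟨0, by omega⟩ 1) z ⟨0, by omega⟩ 1
    rw [← hy] at h4 h6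
    have h7 : (Pi.single (⟨0, by omega⟩ : Fin d) (1 : ℤ) : Fin d → ℤ) ⟨0, by omega⟩ = 1 := by simp
    rw [h7] at h6
    omega
  calc T ω (Pi.single ⟨0, by omega⟩ 1) z ≤ _ := T_triangle ω _ y z
    _ ≤ l1 (Pi.single ⟨0, by omega⟩ 1) y * α + l1 y z * α := add_le_add h1 h2
    _ = ((l1 (Pi.single ⟨0, by omega⟩ 1) y + l1 y z : ℕ) : ℝ≥0) * α := by push_cast; ring
    _ = _ := by rw [h3]

/-- back points -/
lemma back (H : Trap hd h R α β ω) {z : Fin d → ℤ} (hz : InB hd h R z)
    (hz0 : z ⟨0, by omega⟩ = -(h : ℤ) - 1) :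
    T ω (Pi.single ⟨0, by omega⟩ 1) z ≤ ((l1 0 z + 2 * R + 3 : ℕ) : ℝ≥0) * α := by
  set j : Fin d := ⟨1, by omega⟩ with hjdef
  have hj : j ≠ ⟨0, by omega⟩ := by simp [hjdef]
  set y := Function.update z j (R + 1) with hy
  have hyB : InB hd h R y := by
    refine ⟨?_, fun k hk => ?_⟩
    · rw [hy, Function.update_of_ne (Ne.symm hj)]; exact hz.1
    · by_cases hkj : k = j
      · rw [hkj, hy, Function.update_self]; omega
      · rw [hy, Function.update_of_ne hkj]; exact hz.2 k hk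
  have hy0 : y ⟨0, by omega⟩ = -(h : ℤ) - 1 := by
    rw [hy, Function.update_of_ne (Ne.symm hj)]; exact hz0
  have h1 := side H hyB hj (Or.inl (by rw [hy, Function.update_self])) (by rw [hy0]; omega)
  have h2 : T ω y z ≤ l1 y z * α := by
    apply face H (i := ⟨0, by omega⟩) (c := -(h : ℤ) - 1) _ hyB hz hy0 hz0
    intro w hw h2
    have := hw.1.1
    omega
  have h3 : l1 0 y + 1 + l1 y z ≤ l1 0 z + 2 * R + 3 := by
    have h4 := l1_update_self z j (R + 1)
    have h6 := l1_update 0 z j (R + 1)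
    rw [← hy] at h4 h6
    simp only [Pi.zero_apply] at h6
    have := hz.2 j hj
    omega
  calc T ω (Pi.single ⟨0, by omega⟩ 1) z ≤ _ := T_triangle ω _ y z
    _ ≤ ((l1 0 y + 1 : ℕ) : ℝ≥0) * α + l1 y z * α := add_le_add h1 h2
    _ = ((l1 0 y + 1 + l1 y z : ℕ) : ℝ≥0) * α := by push_cast; ring
    _ ≤ _ := by
        apply mul_le_mul_left
        exact_mod_cast h3

lemma front (H : Trap hd h R α β ω) {z : Fin d → ℤ} (hz : InB hd h R z)
    (hz0 : z ⟨0, by omega⟩ = 1) :
    α + T ω (Pi.single ⟨0, by omega⟩ 1) z ≤ (l1 0 z : ℝ≥0) * α := by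
  have h1 : T ω (Pi.single ⟨0, by omega⟩ 1) z ≤ l1 (Pi.single ⟨0, by omega⟩ 1) z * α := by
    apply face H (i := ⟨0, by omega⟩) (c := 1) _ InB_e1 hz (by simp) hz0
    intro w hw h2
    have := hw.1.2
    omega
  have h5 := l1_single z ⟨0, by omega⟩
  rw [hz0] at h5
  have h6 : 1 + l1 (Pi.single ⟨0, by omega⟩ 1) z = l1 0 z := by
    simp at h5
    omega
  calc α + T ω (Pi.single ⟨0, by omega⟩ 1) z ≤ α + l1 (Pi.single ⟨0, by omega⟩ 1) z * α :=
        add_le_add le_rfl h1
    _ = ((1 + l1 (Pi.single ⟨0, by omega⟩ 1) z : ℕ) : ℝ≥0) * α := by push_cast; ring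
    _ = _ := by rw [h6]

/-- every exit point is reached more cheaply through `e₁` -/
lemma exit_le (H : Trap hd h R α β ω) (hαβ : α ≤ β)
    (hR : 2 * α + (R + 1) * α ≤ (R + 1) * β)
    (hh : (2 * R + 4) * α + (h + 1) * α ≤ (h + 1) * β)
    {z : Fin d → ℤ} (hz : InB hd h R z) (hzD : ¬ InD hd h R z) :
    ω (0, ⟨0, by omega⟩) + T ω (Pi.single ⟨0, by omega⟩ 1) z ≤ l1 0 z * β := by
  have hf := H.first
  by_cases h0 : z ⟨0, by omega⟩ = 1
  · calc ω (0, ⟨0, by omega⟩) + T ω (Pi.single ⟨0, by omega⟩ 1) z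
        ≤ α + T ω (Pi.single ⟨0, by omega⟩ 1) z := add_le_add hf le_rfl
      _ ≤ l1 0 z * α := front H hz h0
      _ ≤ l1 0 z * β := by gcongr
  by_cases h1 : z ⟨0, by omega⟩ = -(h : ℤ) - 1
  · have h2 : h + 1 ≤ l1 0 z := by
      have := le_l1 0 z ⟨0, by omega⟩
      rw [h1] at this
      simp only [Pi.zero_apply] at this
      omega
    obtain ⟨m, hm⟩ := Nat.exists_eq_add_of_le h2
    calc ω (0, ⟨0, by omega⟩) + T ω (Pi.single ⟨0, by omega⟩ 1) z
        ≤ α + ((l1 0 z + 2 * R + 3 : ℕ) : ℝ≥0) * α := add_le_add hf (back H hz h1)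
      _ = ((2 * R + 4) * α + (h + 1) * α) + m * α := by rw [hm]; push_cast; ring
      _ ≤ (h + 1) * β + m * β := by gcongr
      _ = l1 0 z * β := by rw [hm]; push_cast; ring
  · have h2 : z ⟨0, by omega⟩ ≤ 0 := by have := hz.1; omega
    have h3 : ∃ j : Fin d, j ≠ ⟨0, by omega⟩ ∧ ¬ (-(R : ℤ) ≤ z j ∧ z j ≤ R) := by
      by_contra hcon
      push Not at hcon
      apply hzD
      refine ⟨⟨by have := hz.1; omega, h2⟩, fun j hj => ?_⟩
      by_contra h4
      exact absurd (hcon j hj) h4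
    obtain ⟨j, hj, hzj⟩ := h3
    have h4 := hz.2 j hj
    have h5 : z j = R + 1 ∨ z j = -(R : ℤ) - 1 := by omega
    have h6 : R + 1 ≤ l1 0 z := by
      have := le_l1 0 z j
      simp only [Pi.zero_apply] at this
      omega
    obtain ⟨m, hm⟩ := Nat.exists_eq_add_of_le h6
    calc ω (0, ⟨0, by omega⟩) + T ω (Pi.single ⟨0, by omega⟩ 1) z
        ≤ α + ((l1 0 z + 1 : ℕ) : ℝ≥0) * α := add_le_add hf (side H hz hj h5 h2)
      _ = (2 * α + (R + 1) * α) + m * α := by rw [hm]; push_cast; ring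
      _ ≤ (R + 1) * β + m * β := by gcongr
      _ = l1 0 z * β := by rw [hm]; push_cast; ring

/-- In the trapping configuration the first step is forced. -/
lemma forced (H : Trap hd h R α β ω) (hαβ : α ≤ β)
    (hR : 2 * α + (R + 1) * α ≤ (R + 1) * β)
    (hh : (2 * R + 4) * α + (h + 1) * α ≤ (h + 1) * β)
    {y : Fin d → ℤ} (hy : ¬ InD hd h R y) :
    T ω 0 y = ω (0, ⟨0, by omega⟩) + T ω (Pi.single ⟨0, by omega⟩ 1) y := by
  apply le_antisymm
  · refine (T_triangle ω 0 (Pi.single ⟨0, by omega⟩ 1) y).trans (add_le_add ?_ le_rfl)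
    exact T_le_edge (Or.inl ⟨rfl, by simp [tip]⟩)
  · apply le_csInf (T_nonempty ω 0 y)
    rintro c ⟨es, hes, rfl⟩
    have h0 : InD hd h R 0 := ⟨⟨by simp, by simp⟩, fun j _ => ⟨by simp, by simp⟩⟩
    rcases lower_path H hy es 0 h0 hes with h1 | ⟨z, hz1, hz2, hz3⟩
    · exact h1
    · refine le_trans ?_ hz3
      calc ω (0, ⟨0, by omega⟩) + T ω (Pi.single ⟨0, by omega⟩ 1) y
          ≤ ω (0, ⟨0, by omega⟩) + (T ω (Pi.single ⟨0, by omega⟩ 1) z + T ω z y) :=
            add_le_add le_rfl (T_triangle ω _ z y)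
        _ = (ω (0, ⟨0, by omega⟩) + T ω (Pi.single ⟨0, by omega⟩ 1) z) + T ω z y := by
            rw [add_assoc]
        _ ≤ l1 0 z * β + T ω z y := add_le_add (exit_le H hαβ hR hh hz1 hz2) le_rfl

end Geometry

/-! ### Probability -/

lemma exists_levels (F : Measure ℝ≥0) [IsProbabilityMeasure F] (hF : ∀ c, F {c} ≠ 1) :
    ∃ α β : ℝ≥0, α < β ∧ 0 < F (Set.Iic α) ∧ 0 < F (Set.Ici β) := by
  have key : ∀ a b : ℝ≥0, a ∈ F.support → b ∈ F.support → a < b →
      ∃ α β : ℝ≥0, α < β ∧ 0 < F (Set.Iic α) ∧ 0 < F (Set.Ici β) := by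
    intro a b ha hb hab
    obtain ⟨α, h1, h2⟩ := exists_between hab
    obtain ⟨β, h3, h4⟩ := exists_between h2
    refine ⟨α, β, h3, ?_, ?_⟩
    · exact Measure.mem_support_iff_forall a |>.1 ha _ (Iic_mem_nhds h1)
    · exact Measure.mem_support_iff_forall b |>.1 hb _ (Ici_mem_nhds h4)
  obtain ⟨a, ha⟩ := Measure.nonempty_support (μ := F) (IsProbabilityMeasure.ne_zero F)
  by_cases h : ∀ b ∈ F.support, b = a
  · exfalso
    apply hF a
    have h1 : F ({a}ᶜ) = 0 := by
      apply measure_mono_null _ (Measure.measure_compl_support (μ := F))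
      intro x hx hx'
      exact hx (h x hx')
    rw [prob_compl_eq_zero_iff (measurableSet_singleton a)] at h1
    exact h1
  · push Not at h
    obtain ⟨b, hb, hba⟩ := h
    rcases lt_or_gt_of_ne hba with h1 | h1
    · exact key b a hb ha h1
    · exact key a b ha hb h1

lemma trap_pos (hd : 2 ≤ d) (h R : ℕ) (α β : ℝ≥0) (F : Measure ℝ≥0) [IsProbabilityMeasure F]
    (hα : 0 < F (Set.Iic α)) (hβ : 0 < F (Set.Ici β)) :
    0 < law d F {ω | Trap hd h R α β ω} := by
  classical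
  set lo : Fin d → ℤ := fun i => if i = ⟨0, by omega⟩ then -(h : ℤ) - 1 else -(R : ℤ) - 1 with hlo
  set hi : Fin d → ℤ := fun i => if i = ⟨0, by omega⟩ then 1 else (R : ℤ) + 1 with hhi
  set K : Finset (Edge d) := (Finset.Icc lo hi) ×ˢ Finset.univ with hK
  set t : Edge d → Set ℝ≥0 := fun e =>
    if e = (0, ⟨0, by omega⟩) ∨ ¬ (InD hd h R e.1 ∨ InD hd h R (tip e)) then Set.Iic α
      else Set.Ici β with ht
  have hB : ∀ x : Fin d → ℤ, InB hd h R x → x ∈ Finset.Icc lo hi := by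
    intro x hx
    rw [Finset.mem_Icc]
    constructor
    · intro i
      simp only [hlo]
      split_ifs with h1
      · rw [h1]; exact hx.1.1
      · exact (hx.2 i h1).1
    · intro i
      simp only [hhi]
      split_ifs with h1
      · rw [h1]; exact hx.1.2
      · exact (hx.2 i h1).2
  have hDB : ∀ x : Fin d → ℤ, InD hd h R x → InB hd h R x := by
    intro x hx
    refine ⟨by have := hx.1; omega, fun j hj => by have := hx.2 j hj; omega⟩
  have hDB' : ∀ e : Edge d, InD hd h R (tip e) → InB hd h R e.1 := by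
    intro e hx
    obtain ⟨h1, h2⟩ := joins_coord (e := e) (x := e.1) (y := tip e) (Or.inl ⟨rfl, rfl⟩)
    have h3 : tip e e.2 = e.1 e.2 + 1 := by simp [tip]
    refine ⟨?_, fun j hj => ?_⟩
    · by_cases h0 : (⟨0, by omega⟩ : Fin d) = e.2
      · have h5 := hx.1
        rw [h0] at h5 ⊢
        omega
      · rw [← h1 _ h0]
        have := hx.1
        omega
    · by_cases h0 : j = e.2
      · have h5 := hx.2 j hj
        rw [h0] at h5 ⊢
        omega
      · rw [← h1 _ h0]
        have := hx.2 j hj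
        omega
  have hsub : Set.pi (K : Set (Edge d)) t ⊆ {ω | Trap hd h R α β ω} := by
    intro ω hω
    have hKe : ∀ e : Edge d, InB hd h R e.1 → ω e ∈ t e := by
      intro e he
      apply hω e
      rw [hK, Finset.coe_product, Set.mem_prod]
      exact ⟨hB _ he, Finset.mem_coe.2 (Finset.mem_univ _)⟩
    refine ⟨?_, ?_, ?_⟩
    · have h0 : InD hd h R 0 := ⟨⟨by simp, by simp⟩, fun j _ => ⟨by simp, by simp⟩⟩
      have := hKe (0, ⟨0, by omega⟩) (hDB _ h0)
      simpa [ht] using this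
    · intro e he hne
      have h1 : InB hd h R e.1 := by
        rcases he with h2 | h2
        · exact hDB _ h2
        · exact hDB' _ h2
      have := hKe e h1
      simp only [ht] at this
      rw [if_neg (by push Not; exact ⟨hne, he⟩)] at this
      exact this
    · intro e h1 h2 h3 h4
      have := hKe e h1
      simp only [ht] at this
      rw [if_pos (Or.inr (by push Not; exact ⟨h3, h4⟩))] at this
      exact this
  refine lt_of_lt_of_le ?_ (measure_mono hsub)
  rw [law, Measure.infinitePi_pi]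
  · rw [pos_iff_ne_zero, Finset.prod_ne_zero_iff]
    intro e _
    simp only [ht]
    split_ifs
    · exact hα.ne'
    · exact hβ.ne'
  · intro e _
    simp only [ht]
    split_ifs
    · exact measurableSet_Iic
    · exact measurableSet_Ici

/-- The increment `B_n = T(0, n e₁) - T(e₁, n e₁)`. -/
noncomputable def B (d n : ℕ) (ω : Edge d → ℝ≥0) : ℝ :=
  (T ω (axis d 0) (axis d n) : ℝ) - (T ω (axis d 1) (axis d n) : ℝ)

lemma axis_one (hd : 1 ≤ d) : axis d 1 = Pi.single ⟨0, hd⟩ 1 := by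
  have := axis_succ hd 0
  rw [axis_zero] at this
  simpa using this

lemma main (hd : 2 ≤ d) (F : Measure ℝ≥0) [IsProbabilityMeasure F] (hF : ∀ c, F {c} ≠ 1) :
    0 < law d F {ω | ∀ n, 1 ≤ n → B d n ω = ω (0, ⟨0, by omega⟩)} := by
  obtain ⟨α, β, hαβ, hα, hβ⟩ := exists_levels F hF
  have hpos : (0 : ℝ) < (β : ℝ) - α := sub_pos.2 (by exact_mod_cast hαβ)
  obtain ⟨R, hR⟩ := exists_nat_ge (2 * (α : ℝ) / (β - α))
  obtain ⟨h, hh⟩ := exists_nat_ge ((2 * (R : ℝ) + 4) * (α : ℝ) / (β - α))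
  rw [div_le_iff₀ hpos] at hR hh
  have hR' : 2 * α + (R + 1) * α ≤ (R + 1) * β := by
    rw [← NNReal.coe_le_coe]
    push_cast
    nlinarith
  have hh' : (2 * R + 4) * α + (h + 1) * α ≤ (h + 1) * β := by
    rw [← NNReal.coe_le_coe]
    push_cast
    nlinarith
  refine lt_of_lt_of_le (trap_pos hd h R α β F hα hβ) (measure_mono ?_)
  intro ω (hω : Trap hd h R α β ω) n hn
  have hy : ¬ InD hd h R (axis d n) := by
    intro h1
    have h2 := h1.1.2
    rw [axis_zero_apply (by omega)] at h2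
    omega
  have h3 := forced hω hαβ.le hR' hh' hy
  rw [B, axis_zero, axis_one (by omega), h3]
  push_cast
  ring

/-- an atomless law -/
lemma exists_atomless : ∃ F : Measure ℝ≥0, IsProbabilityMeasure F ∧ ∀ c, F {c} = 0 := by
  refine ⟨(volume.restrict (Set.Icc (0 : ℝ) 1)).map Real.toNNReal, ?_, fun c => ?_⟩
  · have : IsProbabilityMeasure (volume.restrict (Set.Icc (0 : ℝ) 1)) := ⟨by simp⟩
    exact Measure.isProbabilityMeasure_map (by fun_prop)
  · rw [Measure.map_apply (by fun_prop) (measurableSet_singleton c),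
      Measure.restrict_apply (by measurability)]
    apply measure_mono_null (t := {(c : ℝ)}) _ (by simp)
    rintro x ⟨hx, hx'⟩
    have h1 : Real.toNNReal x = c := hx
    rw [Set.mem_singleton_iff, ← h1, Real.coe_toNNReal x hx'.1]

/-- **Trapping.**  In first-passage percolation on `ℤ^d`, `d ≥ 2`, with i.i.d. edge weights whose
common law `F` is any law which is not a point mass (in particular any law without atoms), with
positive probability `B_n = T(0, n e₁) - T(e₁, n e₁)` equals the weight of the edge `{0, e₁}` for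
every `n ≥ 1`.  Consequently `B_n` converges with positive probability for every such law and
every `d ≥ 2`, and the assertion `Q1` is false. -/
theorem result :
    (∀ (d : ℕ) (hd : 2 ≤ d) (F : Measure ℝ≥0), IsProbabilityMeasure F → (∀ c, F {c} ≠ 1) →
      0 < law d F {ω | ∀ n, 1 ≤ n → B d n ω = ω (0, ⟨0, by omega⟩)}) ∧
    (∀ (d : ℕ), 2 ≤ d → ∀ (F : Measure ℝ≥0), IsProbabilityMeasure F → (∀ c, F {c} ≠ 1) →
      0 < law d F {ω | ∃ L : ℝ, Tendsto (fun n => B d n ω) atTop (𝓝 L)}) ∧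
    ¬ (∀ F : Measure ℝ≥0, IsProbabilityMeasure F → (∀ c, F {c} = 0) →
      ∃ d₀ : ℕ, ∀ d, d₀ ≤ d →
        ∀ᵐ ω ∂(law d F), ¬ ∃ L : ℝ, Tendsto (fun n => B d n ω) atTop (𝓝 L)) := by
  have h1 : ∀ (d : ℕ) (hd : 2 ≤ d) (F : Measure ℝ≥0), IsProbabilityMeasure F →
      (∀ c, F {c} ≠ 1) → 0 < law d F {ω | ∀ n, 1 ≤ n → B d n ω = ω (0, ⟨0, by omega⟩)} :=
    fun d hd F hF hc => main hd F hc
  have h2 : ∀ (d : ℕ), 2 ≤ d → ∀ (F : Measure ℝ≥0), IsProbabilityMeasure F →
      (∀ c, F {c} ≠ 1) →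
      0 < law d F {ω | ∃ L : ℝ, Tendsto (fun n => B d n ω) atTop (𝓝 L)} := by
    intro d hd F hF hc
    refine lt_of_lt_of_le (h1 d hd F hF hc) (measure_mono ?_)
    intro ω hω
    refine ⟨ω (0, ⟨0, by omega⟩), tendsto_const_nhds.congr' ?_⟩
    filter_upwards [eventually_ge_atTop 1] with n hn
    exact (hω n hn).symm
  refine ⟨h1, h2, ?_⟩
  intro hQ
  obtain ⟨F, hF, hc⟩ := exists_atomless
  obtain ⟨d₀, hd₀⟩ := hQ F hF hc
  have h3 := hd₀ (max d₀ 2) (le_max_left _ _)
  have h4 := h2 (max d₀ 2) (le_max_right _ _) F hF (fun c => by rw [hc c]; exact zero_ne_one)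
  rw [ae_iff] at h3
  simp only [not_not] at h3
  exact h4.ne' h3

end Pool.Agent.Results.MP_320542_pr.ConvergesPosProb
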